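import Pool.Agent.H11B.L1
import Pool.Agent.H13K.StmS

/-! Low scales (for project BH): from the systems of helper13 to backgrounds. -/

set_option autoImplicit false

namespace Pool.Agent.H11B

open Finset Filter
open Pool.Agent.H13K (Fv bx sf om Cz lg Wf Pf Lf pr)
open Pool.Agent.H11P.Law (value)
open Pool.Agent.H11P hiding bx
open Pool.Agent.H11A
open Pool.Agent.H373R2.T7 (lamz pz Vz mem_pz)

variable {m : ℕ} {dd : Fin m → ℕ}

/-- the coefficients of `1` and `x` -/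
def lo (hdd : ∀ i, 1 ≤ dd i) (a : ∀ i : Fin m, Fin (dd i + 1) → ℤ) : Fin m → Fin (1 + 1) → ℤ :=
  fun i l => a i (Fin.castLE (by have := hdd i; omega) l)

/-- the part of degree `≥ 2` -/
noncomputable def hi (a : ∀ i : Fin m, Fin (dd i + 1) → ℤ) (i : Fin m) : Polynomial ℤ :=
  ∑ l : Fin (dd i + 1), if 2 ≤ (l : ℕ) then Polynomial.C (a i l) * Polynomial.X ^ (l : ℕ) else 0

/-- replace the coefficients of `1` and `x` -/
def rep (a : ∀ i : Fin m, Fin (dd i + 1) → ℤ) (b : Fin m → Fin (1 + 1) → ℤ) : ∀ i : Fin m, Fin (dd i + 1) → ℤ :=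
  fun i l => if h : (l : ℕ) < 2 then b i ⟨l, h⟩ else a i l

theorem split2 (d : ℕ) (hd : 1 ≤ d) (f : Fin (d + 1) → ℤ) (h2 : 1 + 1 ≤ d + 1) :
    ∑ l, f l = (∑ l : Fin (d + 1), if 2 ≤ (l : ℕ) then f l else 0) + ∑ l : Fin (1 + 1), f (Fin.castLE h2 l) := by
  obtain ⟨e, rfl⟩ : ∃ e, d = e + 1 := ⟨d - 1, by omega⟩
  rw [Fin.sum_univ_succ, Fin.sum_univ_succ]
  rw [Fin.sum_univ_succ (f := fun l : Fin (e + 1 + 1) => if 2 ≤ (l : ℕ) then f l else 0), Fin.sum_univ_succ (n := e)]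
  have h : ∀ l : Fin e, (if 2 ≤ ((l.succ.succ : Fin (e + 1 + 1)) : ℕ) then f l.succ.succ else 0) = f l.succ.succ := by
    intro l
    rw [if_pos (by simp only [Fin.val_succ]; omega)]
  simp only [h]
  have h3 : ∑ l : Fin (1 + 1), f (Fin.castLE h2 l) = f (Fin.castLE h2 0) + f (Fin.castLE h2 1) := Fin.sum_univ_two _
  rw [h3]
  have e0 : ¬ 2 ≤ ((0 : Fin (e + 1 + 1)) : ℕ) := by simp
  have e1 : ¬ 2 ≤ (((0 : Fin (e + 1)).succ : Fin (e + 1 + 1)) : ℕ) := by simp
  rw [if_neg e0, if_neg e1]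
  have c0 : Fin.castLE h2 0 = (0 : Fin (e + 1 + 1)) := rfl
  have c1 : Fin.castLE h2 1 = ((0 : Fin (e + 1)).succ : Fin (e + 1 + 1)) := rfl
  rw [c0, c1]
  ring

theorem value_eq (hdd : ∀ i, 1 ≤ dd i) (a : ∀ i : Fin m, Fin (dd i + 1) → ℤ) (i : Fin m) (n : ℕ) :
    value (hi a i) (lo hdd a i) n = Fv (a i) (n : ℤ) := by
  unfold value Fv
  rw [split2 (dd i) (hdd i) (fun l => a i l * (n : ℤ) ^ (l : ℕ)) (by have := hdd i; omega)]
  congr 1
  unfold hi
  rw [Polynomial.eval_finsetSum]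
  apply sum_congr rfl
  intro l _
  split_ifs with h
  · simp
  · simp

theorem rep_lo (hdd : ∀ i, 1 ≤ dd i) (a : ∀ i : Fin m, Fin (dd i + 1) → ℤ) (b : Fin m → Fin (1 + 1) → ℤ) : lo hdd (rep a b) = b := by
  funext i l
  unfold lo rep
  have h : ((Fin.castLE (by have := hdd i; omega : 1 + 1 ≤ dd i + 1) l : Fin (dd i + 1)) : ℕ) < 2 := by
    have := l.2
    simp only [Fin.val_castLE]
    omega
  rw [dif_pos h]
  rfl

theorem rep_rep (hdd : ∀ i, 1 ≤ dd i) (a : ∀ i : Fin m, Fin (dd i + 1) → ℤ) (b : Fin m → Fin (1 + 1) → ℤ) : rep (rep a b) (lo hdd a) = a := by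
  funext i l
  unfold rep lo
  by_cases h : (l : ℕ) < 2
  · rw [dif_pos h]
    rfl
  · rw [dif_neg h, dif_neg h]

theorem hi_rep (a : ∀ i : Fin m, Fin (dd i + 1) → ℤ) (b : Fin m → Fin (1 + 1) → ℤ) (i : Fin m) : hi (rep a b) i = hi a i := by
  unfold hi
  apply sum_congr rfl
  intro l _
  split_ifs with h
  · unfold rep
    rw [dif_neg (by omega)]
  · rfl

theorem mem_bx (H : ℕ) (a : ∀ i : Fin m, Fin (dd i + 1) → ℤ) : a ∈ bx dd H ↔ ∀ i l, |a i l| ≤ H := by
  unfold bx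
  simp only [Fintype.mem_piFinset, mem_Icc, abs_le]

theorem mem_ab (k d H : ℕ) (a : Fin k → Fin (d + 1) → ℤ) : a ∈ ab k d H ↔ ∀ i l, |a i l| ≤ H := by
  unfold ab
  simp only [Fintype.mem_piFinset, mem_Icc, abs_le]

open Classical in
theorem transfer (hdd : ∀ i, 1 ≤ dd i) (H : ℕ) (Q : (∀ i : Fin m, Fin (dd i + 1) → ℤ) → Prop) (ρ : ℝ)
    (h : ∀ a ∈ bx dd H, (((ab m 1 H).filter (fun b => Q (rep a b))).card : ℝ) ≤ ρ * (ab m 1 H).card) :
    (((bx dd H).filter Q).card : ℝ) ≤ ρ * (bx dd H).card := by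
  have h1 : (((bx dd H) ×ˢ (ab m 1 H)).filter (fun x => Q (rep x.1 x.2))).card = ((bx dd H).filter Q).card * (ab m 1 H).card := by
    rw [← card_product, ← filter_product_left]
    apply card_bij' (fun x _ => (rep x.1 x.2, lo hdd x.1)) (fun x _ => (rep x.1 x.2, lo hdd x.1))
    · intro x hx
      rw [mem_filter, mem_product, mem_bx, mem_ab] at hx
      rw [mem_filter, mem_product, mem_bx, mem_ab]
      refine ⟨⟨?_, ?_⟩, hx.2⟩
      · intro i l
        simp only [rep]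
        split_ifs with h
        · exact hx.1.2 i _
        · exact hx.1.1 i l
      · intro i l
        exact hx.1.1 i _
    · intro x hx
      rw [mem_filter, mem_product, mem_bx, mem_ab] at hx
      rw [mem_filter, mem_product, mem_bx, mem_ab]
      refine ⟨⟨?_, ?_⟩, ?_⟩
      · intro i l
        simp only [rep]
        split_ifs with h
        · exact hx.1.2 i _
        · exact hx.1.1 i l
      · intro i l
        exact hx.1.1 i _
      · simp only
        rw [rep_rep]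
        exact hx.2
    · intro x _
      simp only
      rw [rep_rep, rep_lo]
    · intro x _
      simp only
      rw [rep_rep, rep_lo]
  have h2 : (((bx dd H) ×ˢ (ab m 1 H)).filter (fun x => Q (rep x.1 x.2))).card = ∑ a ∈ bx dd H, ((ab m 1 H).filter (fun b => Q (rep a b))).card := by
    rw [card_filter, sum_product]
    apply sum_congr rfl
    intro a _
    rw [card_filter]
  have h3 : (((bx dd H).filter Q).card : ℝ) * (ab m 1 H).card ≤ (ρ * (bx dd H).card) * (ab m 1 H).card := by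
    rw [← Nat.cast_mul, ← h1, h2]
    push_cast
    refine (sum_le_card_nsmul _ _ _ h).trans (le_of_eq ?_)
    rw [nsmul_eq_mul]
    ring
  have h4 : (0 : ℝ) < (ab m 1 H).card := by exact_mod_cast (ab_ne m 1 H).card_pos
  exact le_of_mul_le_mul_right h3 h4

theorem pri_pz (Y : ℕ) : pri 0 Y = pz Y := by
  ext p
  rw [mem_pri, mem_pz]
  constructor
  · rintro ⟨h1, _, h3⟩
    exact ⟨h3, h1⟩
  · rintro ⟨h1, h2⟩
    exact ⟨h2, h2.pos, h1⟩

theorem kS_Vz (Y : ℕ) : kS (pri 0 Y) = (Vz Y)⁻¹ := by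
  rw [pri_pz]
  unfold kS Vz
  rw [← prod_inv_distrib]
  apply prod_congr rfl
  intro p hp
  have h1 : (2 : ℝ) ≤ p := by exact_mod_cast (mem_pz.1 hp).2.two_le
  unfold fac
  have h2 : (p : ℝ) - 1 ≠ 0 := by linarith
  have h3 : (p : ℝ) ≠ 0 := by linarith
  field_simp
  ring

theorem Ioc_Icc (K : ℕ) : Icc 1 K = Ioc 0 K := by
  ext n
  rw [mem_Icc, mem_Ioc]
  omega

theorem Pf_eq (hdd : ∀ i, 1 ≤ dd i) (a : ∀ i : Fin m, Fin (dd i + 1) → ℤ) (K : ℕ) : Pf a K = (pts (hi a) (Ioc 0 K) (lo hdd a) : ℝ) := by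
  unfold Pf pts
  rw [Ioc_Icc, card_filter]
  push_cast
  apply sum_congr rfl
  intro n _
  unfold pr
  rw [prod_ite_zero]
  simp only [mem_univ, true_imp_iff, prod_const_one, value_eq]

theorem sf_sum (hdd : ∀ i, 1 ≤ dd i) (a : ∀ i : Fin m, Fin (dd i + 1) → ℤ) (Y K : ℕ) :
    ∑ n ∈ Icc 1 K, sf Y a (n : ℤ) = kS (pri 0 Y) ^ m * (NS (hi a) (Ioc 0 K) Y (lo hdd a) : ℝ) := by
  classical
  unfold NS
  rw [Ioc_Icc, card_filter]
  push_cast
  rw [mul_sum]
  apply sum_congr rfl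
  intro n _
  unfold sf lamz
  rw [prod_ite_zero, prod_const, card_univ, Fintype.card_fin, kS_Vz, mul_ite, mul_one, mul_zero]
  congr 1
  simp only [mem_univ, true_imp_iff, value_eq, pri_pz]
  apply propext
  constructor
  · intro h p hp i h2
    exact h i p hp (Int.natCast_dvd.1 h2)
  · intro h i p hp h2
    exact h p hp i (Int.natCast_dvd.2 h2)

end Pool.Agent.H11B
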