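import Pool.Agent.H11B.L2

/-! Low scales (for project BH): the sieved values, the density. -/

set_option autoImplicit false

namespace Pool.Agent.H11B

open Finset Filter
open Pool.Agent.H13K (Fv bx sf om Cz lg Wf Pf Lf pr S_SM S_VZ S_PY S_LOWC)
open Pool.Agent.H11P.Law (value)
open Pool.Agent.H11P hiding bx
open Pool.Agent.H11A
open Pool.Agent.H373R2.T7 (lamz pz Vz mem_pz Vz_pos)

variable {m : ℕ} {dd : Fin m → ℕ}

/-- the sieved values are regular at the grid points -/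
def GoodS (A M1 : ℕ) (ℓ : ℝ) (Y : ℕ) (a : ∀ i : Fin m, Fin (dd i + 1) → ℤ) : Prop :=
  ∀ s q : ℕ, q < M1 → ℓ ≤ (q * 2 ^ s : ℕ) → ((q * 2 ^ s : ℕ) : ℝ) ≤ ℓ ^ A →
    |∑ n ∈ Icc (1 : ℕ) (q * 2 ^ s), (sf Y a (n : ℤ) - Cz Y a)| ≤ ((q * 2 ^ s : ℕ) : ℝ) / Real.log ℓ

open Classical in
theorem sm_grid (hSM : S_SM) (hVZ : S_VZ) (m : ℕ) (dd : Fin m → ℕ) (hdd : ∀ i, 1 ≤ dd i) (A M1 : ℕ) (ε : ℝ) (hε : 0 < ε) :
    ∀ᶠ H : ℕ in atTop, (((bx dd H).filter (fun a => ¬ GoodS A M1 (Real.log H) (Yh H) a)).card : ℝ) ≤ ε * (bx dd H).card := by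
  obtain ⟨C, hC1, hC⟩ := hVZ
  obtain ⟨H1, hH1⟩ := hSM m dd 1 1 hdd
  filter_upwards [eventually_ge_atTop H1, ev_log 32, ev_x 1, ev_ll (m + 3) ((2 * A + 1) * M1 * 2 * C ^ m / ε) 1 one_pos] with H g1 g2 g3 g4
  have hsm := hH1 H g1
  obtain ⟨Y, hY⟩ : ∃ Y, Y = Yh H := ⟨_, rfl⟩
  rw [← hY]
  unfold Yh at hY
  obtain ⟨ℓ, hℓ⟩ : ∃ ℓ : ℝ, ℓ = Real.log H := ⟨_, rfl⟩
  rw [Real.rpow_one] at g4
  rw [← hℓ] at g2 g3 g4 hY hsm ⊢
  obtain ⟨x, hx⟩ : ∃ x, x = Real.log ℓ := ⟨_, rfl⟩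
  rw [← hx] at g3 g4
  have hℓ0 : 0 < ℓ := by linarith
  have hx0 : 0 < x := by linarith
  have hYle : (Y : ℝ) ≤ ℓ / 8 := by rw [hY]; exact Nat.floor_le (by positivity)
  have hY2 : 2 ≤ Y := by
    rw [hY]
    apply Nat.le_floor
    push_cast
    linarith
  have hYr : (2 : ℝ) ≤ Y := by exact_mod_cast hY2
  have hN0 : (0 : ℝ) ≤ (bx dd H).card := Nat.cast_nonneg _
  have hVx : (Vz Y)⁻¹ ≤ C * x := by
    refine (hC Y hY2).trans (mul_le_mul_of_nonneg_left ?_ (by linarith))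
    rw [hx]
    exact Real.log_le_log (by linarith) (by linarith)
  have hV0 : 0 ≤ (Vz Y)⁻¹ := (inv_pos.2 (Vz_pos Y)).le
  have hW : ((Vz Y)⁻¹) ^ m ≤ C ^ m * x ^ m := by
    rw [← mul_pow]
    exact pow_le_pow_left₀ hV0 hVx m
  have hCx : 1 ≤ C ^ m * x ^ m := by
    rw [← mul_pow]
    exact one_le_pow₀ (by nlinarith)
  obtain ⟨𝓘, h𝓘⟩ : ∃ 𝓘 : Finset (ℕ × ℕ), 𝓘 = ((range (⌊2 * A * Real.log ℓ⌋₊ + 1)) ×ˢ (range M1)).filter
    (fun c => ℓ ≤ (c.2 * 2 ^ c.1 : ℕ) ∧ ((c.2 * 2 ^ c.1 : ℕ) : ℝ) ≤ ℓ ^ A) := ⟨_, rfl⟩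
  obtain ⟨G1, hG1⟩ : ∃ G1 : ℕ × ℕ → (∀ i : Fin m, Fin (dd i + 1) → ℤ) → Prop, G1 = fun c a => (((c.2 * 2 ^ c.1 : ℕ) : ℝ)) / x <
      |∑ n ∈ Icc (1 : ℕ) (c.2 * 2 ^ c.1), (sf Y a (n : ℤ) - Cz Y a)| := ⟨_, rfl⟩
  have hsub : (bx dd H).filter (fun a => ¬ GoodS A M1 ℓ Y a) ⊆ 𝓘.biUnion (fun c => (bx dd H).filter (G1 c)) := by
    intro b hb
    rw [mem_filter] at hb
    obtain ⟨hb1, hb2⟩ := hb
    by_contra n1
    apply hb2
    intro s q hq h1 h2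
    by_contra h3
    apply n1
    rw [mem_biUnion]
    refine ⟨(s, q), ?_, ?_⟩
    · rw [h𝓘, mem_filter, mem_product, mem_range, mem_range]
      refine ⟨⟨?_, hq⟩, h1, h2⟩
      have hq1 : 1 ≤ q := by
        by_contra hq0
        have : q = 0 := by omega
        rw [this] at h1
        simp at h1
        linarith
      exact scale_le A s (q * 2 ^ s) ℓ (by linarith) (Nat.le_mul_of_pos_left _ hq1) h2
    · rw [mem_filter, hG1, hx]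
      exact ⟨hb1, not_le.1 h3⟩
  have c1 : ∀ c ∈ 𝓘, (((bx dd H).filter (G1 c)).card : ℝ) ≤ (2 * (C ^ m * x ^ m) * x ^ 2 / ℓ) * (bx dd H).card := by
    intro c hc
    rw [h𝓘, mem_filter] at hc
    obtain ⟨N, hN⟩ : ∃ N, N = c.2 * 2 ^ c.1 := ⟨_, rfl⟩
    have hc2 := hc.2
    rw [← hN] at hc2
    rw [hG1]
    beta_reduce
    rw [← hN]
    have hNp : (0 : ℝ) < N := by linarith
    have h1 := hsm Y (by rw [pow_one]; linarith) N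
    rw [pow_one] at h1
    have h2 : (((bx dd H).filter (fun a => (N : ℝ) / x < |∑ n ∈ Icc (1 : ℕ) N, (sf Y a (n : ℤ) - Cz Y a)|)).card : ℝ) * (N / x) ^ 2 ≤
        ∑ a ∈ bx dd H, (∑ n ∈ Icc (1 : ℕ) N, (sf Y a (n : ℤ) - Cz Y a)) ^ 2 := by
      rw [← nsmul_eq_mul, ← sum_const]
      refine (sum_le_sum (fun a ha => ?_)).trans (sum_le_sum_of_subset_of_nonneg (filter_subset _ _) (fun _ _ _ => sq_nonneg _))
      have h3 := (mem_filter.1 ha).2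
      rw [← sq_abs (∑ n ∈ Icc (1 : ℕ) N, (sf Y a (n : ℤ) - Cz Y a))]
      exact pow_le_pow_left₀ (by positivity) h3.le 2
    have h3 : (((bx dd H).filter (fun a => (N : ℝ) / x < |∑ n ∈ Icc (1 : ℕ) N, (sf Y a (n : ℤ) - Cz Y a)|)).card : ℝ) * (N / x) ^ 2 ≤
        ((2 * (C ^ m * x ^ m) * x ^ 2 / ℓ) * (bx dd H).card) * (N / x) ^ 2 := by
      refine h2.trans (h1.trans ?_)
      have e : ((2 * (C ^ m * x ^ m) * x ^ 2 / ℓ) * (bx dd H).card) * (N / x) ^ 2 = ((bx dd H).card : ℝ) * (2 * (C ^ m * x ^ m) * N ^ 2 / ℓ) := by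
        field_simp
      rw [e]
      apply mul_le_mul_of_nonneg_left _ hN0
      have h4 : (N : ℝ) * ((Vz Y)⁻¹) ^ m ≤ C ^ m * x ^ m * N ^ 2 / ℓ := by
        rw [le_div_iff₀ hℓ0]
        calc (N : ℝ) * ((Vz Y)⁻¹) ^ m * ℓ ≤ N * (C ^ m * x ^ m) * N := by
              apply mul_le_mul (mul_le_mul_of_nonneg_left hW hNp.le) hc2.1 hℓ0.le (by positivity)
          _ = C ^ m * x ^ m * N ^ 2 := by ring
      have h5 : (N : ℝ) ^ 2 / ℓ ≤ C ^ m * x ^ m * N ^ 2 / ℓ := by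
        apply div_le_div_of_nonneg_right _ hℓ0.le
        exact le_mul_of_one_le_left (by positivity) hCx
      calc (N : ℝ) * ((Vz Y)⁻¹) ^ m + N ^ 2 / ℓ ≤ C ^ m * x ^ m * N ^ 2 / ℓ + C ^ m * x ^ m * N ^ 2 / ℓ := add_le_add h4 h5
        _ = 2 * (C ^ m * x ^ m) * N ^ 2 / ℓ := by ring
    refine le_trans (le_of_eq ?_) (le_of_mul_le_mul_right h3 (by positivity))
    congr!
  have h1 : (((bx dd H).filter (fun a => ¬ GoodS A M1 ℓ Y a)).card : ℝ) ≤ ∑ c ∈ 𝓘, (((bx dd H).filter (G1 c)).card : ℝ) := by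
    exact_mod_cast (card_le_card hsub).trans card_biUnion_le
  refine h1.trans ((sum_le_card_nsmul _ _ _ c1).trans ?_)
  rw [nsmul_eq_mul, ← mul_assoc]
  apply mul_le_mul_of_nonneg_right _ hN0
  have h3 : (𝓘.card : ℝ) ≤ ((⌊2 * A * x⌋₊ + 1 : ℕ) : ℝ) * ((M1 : ℕ) : ℝ) := by
    have h3 : 𝓘.card ≤ (⌊2 * A * x⌋₊ + 1) * M1 := by
      rw [h𝓘, hx]
      refine (card_le_card (filter_subset _ _)).trans ?_
      rw [card_product, card_range, card_range]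
    exact_mod_cast h3
  have h4 : ((⌊2 * A * x⌋₊ + 1 : ℕ) : ℝ) ≤ (2 * A + 1) * x := by
    push_cast
    have := Nat.floor_le (by positivity : 0 ≤ 2 * A * x)
    linarith
  calc (𝓘.card : ℝ) * (2 * (C ^ m * x ^ m) * x ^ 2 / ℓ) ≤ (((2 * A + 1) * x) * (M1 : ℝ)) * (2 * (C ^ m * x ^ m) * x ^ 2 / ℓ) := by
        apply mul_le_mul_of_nonneg_right _ (by positivity)
        exact h3.trans (mul_le_mul_of_nonneg_right h4 (Nat.cast_nonneg _))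
    _ = ((2 * A + 1) * M1 * 2 * C ^ m / ε * x ^ (m + 3)) * (ε / ℓ) := by
        rw [pow_add]
        field_simp
    _ ≤ ℓ * (ε / ℓ) := mul_le_mul_of_nonneg_right g4 (by positivity)
    _ = ε := by field_simp

theorem sum_bd (d D A H n : ℕ) (hd : d ≤ D) (ℓ : ℝ) (hℓ : 1 ≤ ℓ) (hDℓ : (D : ℝ) + 1 ≤ ℓ) (c : Fin (d + 1) → ℤ) (hc : ∀ l, |c l| ≤ H)
    (hn : (n : ℝ) ≤ ℓ ^ A) : |((∑ l : Fin (d + 1), c l * (n : ℤ) ^ (l : ℕ) : ℤ) : ℝ)| ≤ H * ℓ ^ (A * D + 1) := by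
  push_cast
  refine (abs_sum_le_sum_abs _ _).trans ?_
  have h1 : ∀ l ∈ (univ : Finset (Fin (d + 1))), |(c l : ℝ) * (n : ℝ) ^ (l : ℕ)| ≤ H * ℓ ^ (A * D) := by
    intro l _
    rw [abs_mul, abs_of_nonneg (by positivity : (0 : ℝ) ≤ (n : ℝ) ^ (l : ℕ))]
    have h2 : |(c l : ℝ)| ≤ H := by exact_mod_cast hc l
    have h3 : (n : ℝ) ^ (l : ℕ) ≤ ℓ ^ (A * D) := by
      calc (n : ℝ) ^ (l : ℕ) ≤ (ℓ ^ A) ^ (l : ℕ) := pow_le_pow_left₀ (Nat.cast_nonneg _) hn _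
        _ = ℓ ^ (A * l) := by rw [← pow_mul]
        _ ≤ ℓ ^ (A * D) := pow_le_pow_right₀ hℓ (Nat.mul_le_mul_left _ (by have := l.2; omega))
    exact mul_le_mul h2 h3 (by positivity) (Nat.cast_nonneg _)
  refine (sum_le_card_nsmul _ _ _ h1).trans ?_
  rw [card_univ, Fintype.card_fin, nsmul_eq_mul, pow_succ]
  push_cast
  have h2 : (d : ℝ) + 1 ≤ ℓ := by
    have : (d : ℝ) ≤ D := by exact_mod_cast hd
    linarith
  calc ((d : ℝ) + 1) * (H * ℓ ^ (A * D)) ≤ ℓ * (H * ℓ ^ (A * D)) := mul_le_mul_of_nonneg_right h2 (by positivity)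
    _ = H * (ℓ ^ (A * D) * ℓ) := by ring

theorem lg_close (H : ℕ) (hH : 2 ≤ H) (ℓ x C η : ℝ) (hℓ : ℓ = Real.log H) (hx : x = Real.log ℓ) (A B : ℕ) (hℓ0 : 1 < ℓ) (hA : (A : ℝ) ≤ C) (hB : (B : ℝ) ≤ C)
    (hη : 2 * (C * x / ℓ) ≤ η) (hη1 : η ≤ 1) (y : ℤ) (h1 : H / ℓ ^ A ≤ |(y : ℝ)|) (h2 : |(y : ℝ)| ≤ H * ℓ ^ B) (h3 : 2 * ℓ ^ A ≤ H) :
    |ℓ * lg y - 1| ≤ η := by
  have hH0 : (0 : ℝ) < H := by exact_mod_cast (by omega : 0 < H)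
  have hℓp : 0 < ℓ := by linarith
  have hx0 : 0 < x := by rw [hx]; exact Real.log_pos hℓ0
  have h4 : (2 : ℝ) ≤ |(y : ℝ)| := by
    refine le_trans ?_ h1
    rw [le_div_iff₀ (by positivity)]
    exact h3
  have h4' : 2 ≤ |y| := by exact_mod_cast h4
  unfold lg
  rw [if_pos h4']
  have c1 := Real.log_le_log (by linarith) h2
  rw [Real.log_mul hH0.ne' (by positivity), Real.log_pow, ← hℓ, ← hx] at c1
  have c2 := Real.log_le_log (by positivity) h1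
  rw [Real.log_div hH0.ne' (by positivity), Real.log_pow, ← hℓ, ← hx] at c2
  obtain ⟨t, ht⟩ : ∃ t, t = Real.log |(y : ℝ)| := ⟨_, rfl⟩
  rw [← ht] at c1 c2 ⊢
  have hAx : (A : ℝ) * x ≤ C * x := mul_le_mul_of_nonneg_right hA hx0.le
  have hBx : (B : ℝ) * x ≤ C * x := mul_le_mul_of_nonneg_right hB hx0.le
  have h5 : 2 * (C * x) ≤ η * ℓ := by
    have : 2 * (C * x / ℓ) = 2 * (C * x) / ℓ := by ring
    rw [this, div_le_iff₀ hℓp] at hη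
    exact hη
  have h6 : η * ℓ ≤ ℓ := by nlinarith
  have ht0 : ℓ / 2 ≤ t := by linarith
  have htp : 0 < t := by linarith
  have e : ℓ * (1 / t) - 1 = (ℓ - t) / t := by field_simp
  rw [e, abs_div, abs_of_pos htp, div_le_iff₀ htp]
  have h7 : |ℓ - t| ≤ C * x := by
    rw [abs_le]
    constructor <;> linarith
  have hη0 : 0 ≤ η := by
    have : 0 ≤ |ℓ - t| := abs_nonneg _
    have h8 : 0 ≤ C * x := by linarith
    have h9 : 0 ≤ 2 * (C * x / ℓ) := by positivity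
    linarith
  have h8 : η * (ℓ / 2) ≤ η * t := mul_le_mul_of_nonneg_left ht0 hη0
  linarith

end Pool.Agent.H11B
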