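import Pool.Agent.H11B.L3

/-! Low scales (for project BH, part B): almost all systems, `(log H)^(m+δ) ≤ N ≤ (log H)^A`. -/

set_option autoImplicit false

namespace Pool.Agent.H11B

open Finset Filter
open Pool.Agent.H13K (Fv bx sf om Cz lg Wf Pf Lf pr S_SM S_VZ S_PY S_LOWC)
open Pool.Agent.H11P.Law (value)
open Pool.Agent.H11P hiding bx
open Pool.Agent.H11A
open Pool.Agent.H373R2.T7 (lamz pz Vz mem_pz Vz_pos)

variable {m : ℕ} {dd : Fin m → ℕ}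

theorem pr_nonneg (n : ℕ) : 0 ≤ pr n := by
  unfold pr
  split_ifs
  · exact zero_le_one
  · exact le_rfl

theorem Pf_mono (a : ∀ i : Fin m, Fin (dd i + 1) → ℤ) {u v : ℕ} (h : u ≤ v) : Pf a u ≤ Pf a v := by
  unfold Pf
  refine sum_le_sum_of_subset_of_nonneg (Icc_subset_Icc_right h) fun _ _ _ => prod_nonneg fun _ _ => pr_nonneg _

/-- the density is regular -/
theorem Lf_close (a : ∀ i : Fin m, Fin (dd i + 1) → ℤ) (ℓ η : ℝ) (hη0 : 0 ≤ η) (hη1 : η ≤ 1) (K : ℕ)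
    (h : ∀ i, ∀ n ∈ Icc 1 K, |ℓ * lg (Fv (a i) (n : ℤ)) - 1| ≤ η) :
    |ℓ ^ m * Lf a K - K| ≤ (m * 2 ^ m * η) * K := by
  have e : ℓ ^ m * Lf a K - K = ∑ n ∈ Icc 1 K, (∏ i, (ℓ * lg (Fv (a i) (n : ℤ))) - ∏ _i : Fin m, (1 : ℝ)) := by
    unfold Lf Wf
    rw [mul_sum, sum_sub_distrib]
    congr 1
    · apply sum_congr rfl
      intro n _
      rw [prod_mul_distrib, prod_const, card_univ, Fintype.card_fin]
    · simp
  rw [e]
  refine (abs_sum_le_sum_abs _ _).trans ?_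
  have h1 : ∀ n ∈ Icc 1 K, |∏ i, (ℓ * lg (Fv (a i) (n : ℤ))) - ∏ _i : Fin m, (1 : ℝ)| ≤ m * 2 ^ m * η := by
    intro n hn
    have := prod_diff (univ : Finset (Fin m)) (fun i => ℓ * lg (Fv (a i) (n : ℤ))) (fun _ => 1) 2 η (by norm_num) hη0 (fun i _ => by
      have := abs_le.1 (h i n hn)
      rw [abs_le]
      constructor <;> linarith) (fun i _ => by norm_num) (fun i _ => h i n hn)
    rw [card_univ, Fintype.card_fin] at this
    exact this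
  refine (sum_le_card_nsmul _ _ _ h1).trans (le_of_eq ?_)
  rw [Nat.card_Icc, nsmul_eq_mul, Nat.add_sub_cancel]
  ring

/-- from the grid to all `K` -/
theorem sandwich (u : ℕ → ℝ) (hu : ∀ v w : ℕ, v ≤ w → u v ≤ u w) (b η ℓ ℓ1 : ℝ) (hb : 0 ≤ b) (hη0 : 0 < η) (hη1 : η ≤ 1 / 2) (M0 : ℕ) (hM0 : 1 / η ≤ M0)
    (hgrid : ∀ s q : ℕ, q < 2 * M0 + 2 → ℓ ≤ (q * 2 ^ s : ℕ) → ((q * 2 ^ s : ℕ) : ℝ) ≤ ℓ1 → |u (q * 2 ^ s) - ((q * 2 ^ s : ℕ) : ℝ) * b| ≤ η * (((q * 2 ^ s : ℕ) : ℝ) * b))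
    (K : ℕ) (hK : 2 * ℓ ≤ K) (hK1 : 2 * (K : ℝ) ≤ ℓ1) (hKM : M0 ≤ K) :
    |u K - K * b| ≤ 3 * η * (K * b) := by
  have hM1 : 1 ≤ M0 := by
    have h1 : (1 : ℝ) ≤ M0 := by
      refine le_trans ?_ hM0
      rw [le_div_iff₀ hη0]
      linarith
    exact_mod_cast h1
  obtain ⟨s, hs1, hs2⟩ := scale_choice M0 K hM1 hKM
  obtain ⟨q, hq⟩ : ∃ q, q = K / 2 ^ s := ⟨_, rfl⟩
  have h2s : 0 < 2 ^ s := by positivity
  have hq1 : q * 2 ^ s ≤ K := by rw [hq]; exact Nat.div_mul_le_self _ _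
  have hq2 : K ≤ (q + 1) * 2 ^ s := by
    rw [hq, mul_comm]
    exact (Nat.lt_mul_div_succ K h2s).le
  have hqM : q ≤ 2 * M0 := by
    rw [hq]
    apply Nat.div_le_of_le_mul
    calc K ≤ 2 * 2 ^ s * M0 := hs2
      _ = 2 ^ s * (2 * M0) := by ring
  have hKr0 : (0 : ℝ) ≤ K := Nat.cast_nonneg _
  have hs3 : ((2 ^ s : ℕ) : ℝ) ≤ η * K := by
    have h1 : ((2 ^ s : ℕ) : ℝ) * M0 ≤ K := by exact_mod_cast hs1
    have h2 : ((2 ^ s : ℕ) : ℝ) * (1 / η) ≤ K := le_trans (mul_le_mul_of_nonneg_left hM0 (Nat.cast_nonneg _)) h1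
    have h3 : ((2 ^ s : ℕ) : ℝ) = η * (((2 ^ s : ℕ) : ℝ) * (1 / η)) := by field_simp
    rw [h3]
    exact mul_le_mul_of_nonneg_left h2 hη0.le
  have e1 : (((q + 1) * 2 ^ s : ℕ) : ℝ) = ((q * 2 ^ s : ℕ) : ℝ) + ((2 ^ s : ℕ) : ℝ) := by push_cast; ring
  have f1 : ((q * 2 ^ s : ℕ) : ℝ) ≤ K := by exact_mod_cast hq1
  have f2 : (K : ℝ) ≤ (((q + 1) * 2 ^ s : ℕ) : ℝ) := by exact_mod_cast hq2
  have f3 : η * (K : ℝ) ≤ 1 / 2 * K := mul_le_mul_of_nonneg_right hη1 hKr0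
  obtain ⟨N1, hN1⟩ : ∃ N1, N1 = q * 2 ^ s := ⟨_, rfl⟩
  obtain ⟨N2, hN2⟩ : ∃ N2, N2 = (q + 1) * 2 ^ s := ⟨_, rfl⟩
  have g1 := hgrid s q (by omega) (by linarith) (by linarith)
  have g2 := hgrid s (q + 1) (by omega) (by linarith) (by linarith)
  have m1 := hu _ _ hq1
  have m2 := hu _ _ hq2
  rw [← hN1] at g1 m1 f1 e1
  rw [← hN2] at g2 m2 f2 e1
  rw [abs_le] at g1 g2
  have k1 : (N1 : ℝ) * b ≤ K * b := mul_le_mul_of_nonneg_right f1 hb
  have k2 : (1 - η) * (K * b) ≤ N1 * b := by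
    rw [← mul_assoc]
    apply mul_le_mul_of_nonneg_right _ hb
    linarith
  have k3 : (N2 : ℝ) * b ≤ (1 + η) * (K * b) := by
    rw [← mul_assoc]
    apply mul_le_mul_of_nonneg_right _ hb
    linarith
  have hKb : 0 ≤ K * b := by positivity
  have k4 : η * ((N2 : ℝ) * b) ≤ η * ((1 + η) * (K * b)) := mul_le_mul_of_nonneg_left k3 hη0.le
  have k5 : η * ((N1 : ℝ) * b) ≤ η * (K * b) := mul_le_mul_of_nonneg_left k1 hη0.le
  have k6 : η * (η * (K * b)) ≤ 1 / 2 * (η * (K * b)) := mul_le_mul_of_nonneg_right hη1 (by positivity)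
  have k7 : 0 ≤ η * (K * b) := by positivity
  rw [abs_le]
  constructor
  · linarith
  · linarith

/-- the final arithmetic -/
theorem fin_key (p l b c N η : ℝ) (hN : 0 < N) (hc : 0 < c) (hη0 : 0 < η) (hη1 : η ≤ 1 / 16) (h1 : |p - N * b| ≤ 3 * η * (N * b))
    (h2 : |l - N| ≤ η * N) (h3 : |b - c| ≤ η * c) : |p - c * l| ≤ 16 * η * (c * l) := by
  rw [abs_le] at h1 h2 h3
  have hNc : 0 < N * c := by positivity
  have t1 : N * (b - c) ≤ N * (η * c) := mul_le_mul_of_nonneg_left h3.2 hN.le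
  have t2 : N * (-(η * c)) ≤ N * (b - c) := mul_le_mul_of_nonneg_left h3.1 hN.le
  have t5 : c * (l - N) ≤ c * (η * N) := mul_le_mul_of_nonneg_left h2.2 hc.le
  have t6 : c * (-(η * N)) ≤ c * (l - N) := mul_le_mul_of_nonneg_left h2.1 hc.le
  have e1 : N * (b - c) = N * b - N * c := by ring
  have e2 : c * (l - N) = c * l - N * c := by ring
  have e3 : N * (η * c) = η * (N * c) := by ring
  have e4 : c * (η * N) = η * (N * c) := by ring
  have e5 : N * (-(η * c)) = -(η * (N * c)) := by ring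
  have e6 : c * (-(η * N)) = -(η * (N * c)) := by ring
  rw [e1, e3] at t1
  rw [e1, e5] at t2
  rw [e2, e4] at t5
  rw [e2, e6] at t6
  have t7 : η * (N * c) ≤ 1 / 16 * (N * c) := mul_le_mul_of_nonneg_right hη1 hNc.le
  have t3 : N * b ≤ 2 * (N * c) := by linarith
  have t8 : N * c ≤ 2 * (c * l) := by linarith
  have t4 : η * (N * b) ≤ η * (2 * (N * c)) := mul_le_mul_of_nonneg_left t3 hη0.le
  have t9 : η * (N * c) ≤ η * (2 * (c * l)) := mul_le_mul_of_nonneg_left t8 hη0.le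
  have e7 : 3 * η * (N * b) = 3 * (η * (N * b)) := by ring
  have e8 : η * (2 * (N * c)) = 2 * (η * (N * c)) := by ring
  have e9 : η * (2 * (c * l)) = 2 * (η * (c * l)) := by ring
  have e10 : 16 * η * (c * l) = 16 * (η * (c * l)) := by ring
  rw [e8] at t4
  rw [e9] at t9
  rw [e7] at h1
  rw [e10, abs_le]
  constructor
  · linarith
  · linarith

/-- **Part B**: the theorem for the low scales -/
theorem low (hSM : S_SM) (hVZ : S_VZ) (hPY : S_PY) (hLC : S_LOWC) (hSW : SWU) (m : ℕ) (dd : Fin m → ℕ) (hm : 1 ≤ m) (hdd : ∀ i, 1 ≤ dd i)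
    (A : ℕ) (δ ε : ℝ) (hδ : 0 < δ) (hε : 0 < ε) :
    ∃ z0 H0 : ℕ, ∀ H : ℕ, H0 ≤ H → ∃ Bad ⊆ bx dd H, (Bad.card : ℝ) ≤ ε * (bx dd H).card ∧
    ∀ a ∈ bx dd H, a ∉ Bad → (∀ p : ℕ, p.Prime → om p a ≠ p) → ∀ z : ℕ, z0 ≤ z → z ^ 4 ≤ H → 0 < Cz z a ∧
      ∀ N : ℕ, Real.log H ^ ((m : ℝ) + δ) ≤ N → (N : ℝ) ≤ Real.log H ^ A →
        |Pf a N - Cz z a * Lf a N| ≤ ε * (Cz z a * Lf a N) := by
  classical
  obtain ⟨δ1, hδ1⟩ : ∃ δ1, δ1 = min δ 1 := ⟨_, rfl⟩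
  obtain ⟨ε1, hε1⟩ : ∃ ε1, ε1 = min ε 1 := ⟨_, rfl⟩
  have hδ10 : 0 < δ1 := by rw [hδ1]; exact lt_min hδ one_pos
  have hδ11 : δ1 ≤ 1 := by rw [hδ1]; exact min_le_right _ _
  have hδ12 : δ1 ≤ δ := by rw [hδ1]; exact min_le_left _ _
  have hε10 : 0 < ε1 := by rw [hε1]; exact lt_min hε one_pos
  have hε11 : ε1 ≤ 1 := by rw [hε1]; exact min_le_right _ _
  have hε12 : ε1 ≤ ε := by rw [hε1]; exact min_le_left _ _
  obtain ⟨η, hη⟩ : ∃ η, η = ε1 / 16 := ⟨_, rfl⟩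
  have hη0 : 0 < η := by rw [hη]; positivity
  have hη1 : η ≤ 1 / 16 := by rw [hη]; linarith
  obtain ⟨C1, z1, hC1, hpy⟩ := hPY m dd hdd
  obtain ⟨cl, Dl, hcl, hlc⟩ := hLC m dd
  -- z0
  obtain ⟨z0, hz01, hz03, hz0a, hz0b⟩ : ∃ z0 : ℕ, z1 ≤ z0 ∧ 3 ≤ z0 ∧ C1 * (z0 : ℝ) ^ (-(1 / 4) : ℝ) ≤ ε1 / 4 ∧ C1 * (z0 : ℝ) ^ (-(1 / 20) : ℝ) ≤ η / 4 := by
    have t1 : Tendsto (fun w : ℕ => C1 * (w : ℝ) ^ (-(1 / 4) : ℝ)) atTop (nhds (C1 * 0)) :=
      ((tendsto_rpow_neg_atTop (by norm_num : (0 : ℝ) < 1 / 4)).comp tendsto_natCast_atTop_atTop).const_mul _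
    have t2 : Tendsto (fun w : ℕ => C1 * (w : ℝ) ^ (-(1 / 20) : ℝ)) atTop (nhds (C1 * 0)) :=
      ((tendsto_rpow_neg_atTop (by norm_num : (0 : ℝ) < 1 / 20)).comp tendsto_natCast_atTop_atTop).const_mul _
    rw [mul_zero] at t1 t2
    obtain ⟨z0, h⟩ := ((eventually_ge_atTop z1).and ((eventually_ge_atTop 3).and
      ((t1.eventually_le_const (by positivity : 0 < ε1 / 4)).and (t2.eventually_le_const (by positivity : 0 < η / 4))))).exists
    exact ⟨z0, h.1, h.2.1, h.2.2.1, h.2.2.2⟩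
  obtain ⟨c0, hc0⟩ : ∃ c0 : ℝ, c0 = cl / Real.log z0 ^ Dl := ⟨_, rfl⟩
  have hz0r : (3 : ℝ) ≤ z0 := by exact_mod_cast hz03
  have hlz0 : 0 < Real.log z0 := Real.log_pos (by linarith)
  have hc00 : 0 < c0 := by rw [hc0]; positivity
  -- the grid
  obtain ⟨M0, hM0⟩ : ∃ M0 : ℕ, M0 = ⌈1 / η⌉₊ := ⟨_, rfl⟩
  have hM0r : 1 / η ≤ M0 := by rw [hM0]; exact Nat.le_ceil _
  obtain ⟨D, hD⟩ : ∃ D : ℕ, D = ∑ i, dd i := ⟨_, rfl⟩
  have hdD : ∀ i, dd i ≤ D := by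
    intro i
    rw [hD]
    exact single_le_sum (f := dd) (fun _ _ => Nat.zero_le _) (mem_univ i)
  obtain ⟨A', hA'⟩ : ∃ A', A' = (A + 1) * D + 1 := ⟨_, rfl⟩
  have hprim := prim_grid hSW m (A + 1) A' (2 * M0 + 2) 1 hm (δ1 / 2) (ε1 / 4) (by positivity) (by linarith) (by positivity)
  have hsm := sm_grid hSM hVZ m dd hdd (A + 1) (2 * M0 + 2) (ε1 / 4) (by positivity)
  obtain ⟨C2, hC2⟩ : ∃ C2 : ℝ, C2 = ((A + 1 + 2 : ℕ) : ℝ) + (A' : ℝ) := ⟨_, rfl⟩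
  obtain ⟨η2, hη2⟩ : ∃ η2 : ℝ, η2 = η / (m * 2 ^ m) := ⟨_, rfl⟩
  have hm1 : (1 : ℝ) ≤ m := by exact_mod_cast hm
  have hmm : 1 ≤ (m : ℝ) * 2 ^ m := by
    have : (1 : ℝ) ≤ 2 ^ m := one_le_pow₀ (by norm_num)
    nlinarith
  have hη20 : 0 < η2 := by rw [hη2]; positivity
  have hη21 : η2 ≤ η := by rw [hη2]; exact div_le_self hη0.le hmm
  have hη2m : (m : ℝ) * 2 ^ m * η2 = η := by rw [hη2]; field_simp
  have hev : ∀ᶠ H : ℕ in atTop, ∃ Bad ⊆ bx dd H, (Bad.card : ℝ) ≤ ε * (bx dd H).card ∧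
    ∀ a ∈ bx dd H, a ∉ Bad → (∀ p : ℕ, p.Prime → om p a ≠ p) → ∀ z : ℕ, z0 ≤ z → z ^ 4 ≤ H → 0 < Cz z a ∧
      ∀ N : ℕ, Real.log H ^ ((m : ℝ) + δ) ≤ N → (N : ℝ) ≤ Real.log H ^ A →
        |Pf a N - Cz z a * Lf a N| ≤ ε * (Cz z a * Lf a N) := by
    filter_upwards [hprim, hsm, ev_log 32, ev_log ((D : ℝ) + 1), ev_x 1, ev_x (8 / (η * c0)), ev_ll 0 2 (δ1 / 2) (by positivity), ev_log (M0 : ℝ),
      eventually_ge_atTop 2, ev_ll 1 (2 * C2 / η2) 1 one_pos, ev_pow (A + 3) 2 1 one_pos, ev_pow 4 1 1 one_pos, ev_log (z0 : ℝ),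
      ev_log (8 * (z0 : ℝ))] with H g1 g2 g3 g4 g5 g6 g7 g8 g9 g10 g11 g12 g13 g14
    obtain ⟨ℓ, hℓ⟩ : ∃ ℓ : ℝ, ℓ = Real.log H := ⟨_, rfl⟩
    rw [Real.rpow_one] at g10 g11 g12
    rw [pow_zero, mul_one] at g7
    rw [pow_one] at g10
    rw [one_mul] at g12
    rw [← hℓ] at g1 g2 g3 g4 g5 g6 g7 g8 g10 g11 g12 g13 g14 ⊢
    obtain ⟨x, hx⟩ : ∃ x, x = Real.log ℓ := ⟨_, rfl⟩
    rw [← hx] at g5 g6 g10
    have hℓ0 : 0 < ℓ := by linarith
    have hℓ1 : 1 ≤ ℓ := by linarith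
    have hx0 : 0 < x := by linarith
    have hN0 : (0 : ℝ) ≤ (bx dd H).card := Nat.cast_nonneg _
    obtain ⟨Y, hY⟩ : ∃ Y, Y = Yh H := ⟨_, rfl⟩
    rw [← hY] at g1 g2
    have hY' := hY
    unfold Yh at hY'
    rw [← hℓ] at hY'
    have hYle : (Y : ℝ) ≤ ℓ / 8 := by rw [hY']; exact Nat.floor_le (by positivity)
    have hz0Y : z0 ≤ Y := by
      rw [hY']
      apply Nat.le_floor
      linarith
    have hY4 : Y ^ 4 ≤ H := by
      have h1 : ((Y ^ 4 : ℕ) : ℝ) ≤ H := by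
        push_cast
        refine le_trans (pow_le_pow_left₀ (Nat.cast_nonneg _) (by linarith : (Y : ℝ) ≤ ℓ) 4) g12
      exact_mod_cast h1
    obtain ⟨Bad3, hB31, hB32, hB33⟩ := hpy H z0 hz01 (by omega)
    obtain ⟨Bad1, hBad1⟩ : ∃ Bad1, Bad1 = (bx dd H).filter (fun a => ¬ Good m (A + 1) (2 * M0 + 2) 1 (δ1 / 2) ℓ H Y (hi a) (lo hdd a)) := ⟨_, rfl⟩
    obtain ⟨Bad2, hBad2⟩ : ∃ Bad2, Bad2 = (bx dd H).filter (fun a => ¬ GoodS (A + 1) (2 * M0 + 2) ℓ Y a) := ⟨_, rfl⟩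
    have c1 : (Bad1.card : ℝ) ≤ ε1 / 4 * (bx dd H).card := by
      rw [hBad1]
      refine le_trans (le_of_eq ?_) (transfer hdd H (fun a => ¬ Good m (A + 1) (2 * M0 + 2) 1 (δ1 / 2) ℓ H Y (hi a) (lo hdd a)) (ε1 / 4) ?_)
      · congr!
      intro a ha
      rw [mem_bx] at ha
      refine le_trans (le_of_eq ?_) (g1 (hi a) ?_)
      · have e1 : ∀ b, hi (rep a b) = hi a := by
          intro b
          funext i
          exact hi_rep a b i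
        simp only [e1, rep_lo]
      · intro i n hn
        have h1 := sum_bd (dd i) D (A + 1) H n (hdD i) ℓ hℓ1 g4 (fun l => if 2 ≤ (l : ℕ) then a i l else 0) (by
          intro l
          split_ifs
          · exact ha i l
          · simp) hn
        rw [hA']
        refine le_trans (le_of_eq ?_) h1
        congr 2
        unfold hi
        rw [Polynomial.eval_finsetSum]
        apply sum_congr rfl
        intro l _
        split_ifs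
        · simp
        · simp
    have c3 : (Bad3.card : ℝ) ≤ ε1 / 4 * (bx dd H).card := by
      refine hB32.trans ?_
      calc C1 * ((bx dd H).card : ℝ) * (z0 : ℝ) ^ (-(1 / 4) : ℝ) = (C1 * (z0 : ℝ) ^ (-(1 / 4) : ℝ)) * (bx dd H).card := by ring
        _ ≤ ε1 / 4 * (bx dd H).card := mul_le_mul_of_nonneg_right hz0a hN0
    refine ⟨Bad1 ∪ Bad2 ∪ Bad3, ?_, ?_, ?_⟩
    · intro a ha
      rw [mem_union, mem_union] at ha
      rcases ha with (ha | ha) | ha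
      · rw [hBad1] at ha; exact (mem_filter.1 ha).1
      · rw [hBad2] at ha; exact (mem_filter.1 ha).1
      · exact hB31 ha
    · have h1 : (((Bad1 ∪ Bad2 ∪ Bad3).card : ℕ) : ℝ) ≤ Bad1.card + Bad2.card + Bad3.card := by
        have h2 := card_union_le (Bad1 ∪ Bad2) Bad3
        have h3 := card_union_le Bad1 Bad2
        exact_mod_cast (by omega : (Bad1 ∪ Bad2 ∪ Bad3).card ≤ Bad1.card + Bad2.card + Bad3.card)
      have c2 : (Bad2.card : ℝ) ≤ ε1 / 4 * (bx dd H).card := by rw [hBad2]; exact g2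
      have h4 : ε1 * ((bx dd H).card : ℝ) ≤ ε * (bx dd H).card := mul_le_mul_of_nonneg_right hε12 hN0
      have h5 : 0 ≤ ε1 * ((bx dd H).card : ℝ) := by positivity
      linarith
    · intro a ha haB hadm z hz0z hzH
      simp only [mem_union, not_or] at haB
      obtain ⟨⟨n1, n2⟩, n3⟩ := haB
      rw [hBad1, mem_filter, not_and, not_not] at n1
      rw [hBad2, mem_filter, not_and, not_not] at n2
      have m1 := n1 ha
      have m2 := n2 ha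
      have hpyz := hB33 a ha n3 z hz0z hzH
      have hpyY := hB33 a ha n3 Y hz0Y hY4
      have hC0 : c0 ≤ Cz z0 a := by
        rw [hc0]
        exact (hlc z0 a hz03).2.2 (fun p hp => hadm p (mem_pz.1 hp).2)
      have hC0p : 0 < Cz z0 a := by linarith
      obtain ⟨C0, hC0d⟩ : ∃ C0, C0 = Cz z0 a := ⟨_, rfl⟩
      obtain ⟨b, hb⟩ : ∃ b, b = Cz Y a := ⟨_, rfl⟩
      obtain ⟨c, hc⟩ : ∃ c, c = Cz z a := ⟨_, rfl⟩
      rw [← hC0d] at hC0 hC0p hpyz hpyY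
      rw [← hb] at hpyY
      rw [← hc] at hpyz ⊢
      have q1 : |c - C0| ≤ η / 4 * C0 := hpyz.trans (mul_le_mul_of_nonneg_right hz0b hC0p.le)
      have q2 : |b - C0| ≤ η / 4 * C0 := hpyY.trans (mul_le_mul_of_nonneg_right hz0b hC0p.le)
      have q3 : η / 4 * C0 ≤ 1 / 4 * C0 := mul_le_mul_of_nonneg_right (by linarith) hC0p.le
      rw [abs_le] at q1 q2
      have hcp : 0 < c := by linarith
      have hbc0 : c0 / 2 ≤ b := by linarith
      have hbp : 0 < b := by linarith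
      have q4 : |b - c| ≤ η * c := by
        have h1 : η / 4 * C0 ≤ η / 4 * (2 * c) := mul_le_mul_of_nonneg_left (by linarith) (by positivity)
        rw [abs_le]
        constructor
        · linarith
        · linarith
      refine ⟨hcp, fun N hN1 hN2 => ?_⟩
      -- grid
      have hgrid : ∀ s q : ℕ, q < 2 * M0 + 2 → ℓ ^ ((m : ℝ) + δ1 / 2) ≤ (q * 2 ^ s : ℕ) → ((q * 2 ^ s : ℕ) : ℝ) ≤ ℓ ^ (A + 1) →
          |ℓ ^ m * Pf a (q * 2 ^ s) - ((q * 2 ^ s : ℕ) : ℝ) * b| ≤ η * (((q * 2 ^ s : ℕ) : ℝ) * b) := by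
        intro s q hq h1 h2
        have r1 := m1.1 s q hq h1 h2
        rw [pow_one, ← hx, ← Pf_eq hdd, ← sf_sum hdd] at r1
        have hℓm : ℓ ≤ ℓ ^ ((m : ℝ) + δ1 / 2) := by
          calc ℓ = ℓ ^ (1 : ℝ) := (Real.rpow_one ℓ).symm
            _ ≤ ℓ ^ ((m : ℝ) + δ1 / 2) := Real.rpow_le_rpow_of_exponent_le hℓ1 (by linarith)
        have r2 := m2 s q hq (hℓm.trans h1) h2
        rw [← hx, ← hb, sum_sub_distrib, sum_const, Nat.card_Icc, Nat.add_sub_cancel, nsmul_eq_mul] at r2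
        obtain ⟨Nq, hNq⟩ : ∃ Nq : ℕ, Nq = q * 2 ^ s := ⟨_, rfl⟩
        rw [← hNq] at r1 r2 h1 h2 ⊢
        have r3 : |ℓ ^ m * Pf a Nq - Nq * b| ≤ 2 * (Nq / x) := by
          have e : ℓ ^ m * Pf a Nq - Nq * b = (ℓ ^ m * Pf a Nq - ∑ n ∈ Icc (1 : ℕ) Nq, sf Y a (n : ℤ)) + (∑ n ∈ Icc (1 : ℕ) Nq, sf Y a (n : ℤ) - Nq * b) := by ring
          rw [e]
          refine (abs_add_le _ _).trans ?_
          linarith
        refine r3.trans ?_
        have r4 : 8 ≤ x * (η * c0) := by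
          rw [div_le_iff₀ (by positivity)] at g6
          exact g6
        have r5 : 2 / x ≤ η * b := by
          rw [div_le_iff₀ hx0]
          have : η * (c0 / 2) * x ≤ η * b * x := by gcongr
          linarith
        calc 2 * ((Nq : ℝ) / x) = Nq * (2 / x) := by ring
          _ ≤ Nq * (η * b) := mul_le_mul_of_nonneg_left r5 (Nat.cast_nonneg _)
          _ = η * (Nq * b) := by ring
      have hNbig : 2 * ℓ ^ ((m : ℝ) + δ1 / 2) ≤ N := by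
        refine le_trans ?_ hN1
        calc 2 * ℓ ^ ((m : ℝ) + δ1 / 2) ≤ ℓ ^ (δ1 / 2) * ℓ ^ ((m : ℝ) + δ1 / 2) := mul_le_mul_of_nonneg_right g7 (by positivity)
          _ = ℓ ^ (δ1 / 2 + ((m : ℝ) + δ1 / 2)) := by rw [← Real.rpow_add hℓ0]
          _ ≤ ℓ ^ ((m : ℝ) + δ) := Real.rpow_le_rpow_of_exponent_le hℓ1 (by linarith)
      have hNℓ : ℓ ≤ N := by
        have hℓm : ℓ ≤ ℓ ^ ((m : ℝ) + δ1 / 2) := by
          calc ℓ = ℓ ^ (1 : ℝ) := (Real.rpow_one ℓ).symm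
            _ ≤ ℓ ^ ((m : ℝ) + δ1 / 2) := Real.rpow_le_rpow_of_exponent_le hℓ1 (by linarith)
        linarith
      have hsand := sandwich (fun n => ℓ ^ m * Pf a n) (fun v w h => mul_le_mul_of_nonneg_left (Pf_mono a h) (by positivity)) b η (ℓ ^ ((m : ℝ) + δ1 / 2)) (ℓ ^ (A + 1))
        hbp.le hη0 (by linarith) M0 hM0r hgrid N hNbig (by
          rw [pow_succ]
          have : ℓ ^ A * 2 ≤ ℓ ^ A * ℓ := mul_le_mul_of_nonneg_left (by linarith) (by positivity)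
          linarith) (by
          have : (M0 : ℝ) ≤ N := by linarith
          exact_mod_cast this)
      -- the density
      have hlg : ∀ i, ∀ n ∈ Icc 1 N, |ℓ * lg (Fv (a i) (n : ℤ)) - 1| ≤ η2 := by
        intro i n hn
        rw [mem_Icc] at hn
        have hnN : (n : ℝ) ≤ ℓ ^ (A + 1) := by
          have h1 : (n : ℝ) ≤ N := by exact_mod_cast hn.2
          have h2 : ℓ ^ A ≤ ℓ ^ (A + 1) := pow_le_pow_right₀ hℓ1 (by omega)
          linarith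
        have h1 := m1.2 i n (by
          rw [mem_Ioc]
          exact ⟨by omega, Nat.le_floor hnN⟩)
        rw [value_eq] at h1
        have h2 := sum_bd (dd i) D (A + 1) H n (hdD i) ℓ hℓ1 g4 (a i) ((mem_bx H a).1 ha i) hnN
        apply lg_close H (by omega) ℓ x C2 η2 hℓ hx (A + 1 + 2) A' (by linarith) (by rw [hC2]; linarith [(Nat.cast_nonneg A' : (0 : ℝ) ≤ A')])
          (by rw [hC2]; linarith [(Nat.cast_nonneg (A + 1 + 2) : (0 : ℝ) ≤ ((A + 1 + 2 : ℕ) : ℝ))]) _ (by linarith) _ h1 (by rw [hA']; exact h2) _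
        · rw [mul_div_assoc', div_le_iff₀ hℓ0]
          have e : 2 * C2 / η2 * x = 2 * (C2 * x) / η2 := by ring
          rw [e, div_le_iff₀ hη20] at g10
          linarith
        · exact g11
      have hL := Lf_close a ℓ η2 hη20.le (by linarith) N hlg
      rw [hη2m] at hL
      -- the end
      have hNr : (0 : ℝ) < N := by linarith
      obtain ⟨p, hp⟩ : ∃ p, p = ℓ ^ m * Pf a N := ⟨_, rfl⟩
      obtain ⟨l, hl⟩ : ∃ l, l = ℓ ^ m * Lf a N := ⟨_, rfl⟩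
      have hsand' : |p - N * b| ≤ 3 * η * (N * b) := by rw [hp]; exact hsand
      rw [← hl] at hL
      have hℓm0 : 0 < ℓ ^ m := by positivity
      have key : |p - c * l| ≤ ε1 * (c * l) := by
        have hε1η : ε1 = 16 * η := by rw [hη]; ring
        rw [hε1η]
        exact fin_key p l b c N η hNr hcp hη0 hη1 hsand' hL q4
      have key2 : ℓ ^ m * |Pf a N - c * Lf a N| ≤ ℓ ^ m * (ε * (c * Lf a N)) := by
        have e : p - c * l = ℓ ^ m * (Pf a N - c * Lf a N) := by rw [hp, hl]; ring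
        rw [e, abs_mul, abs_of_pos hℓm0] at key
        refine key.trans ?_
        have hL0 : 0 ≤ c * l := by
          have h1 : 0 ≤ ε1 * (c * l) := (mul_nonneg hℓm0.le (abs_nonneg _)).trans key
          exact (mul_nonneg_iff_of_pos_left hε10).1 h1
        calc ε1 * (c * l) ≤ ε * (c * l) := mul_le_mul_of_nonneg_right hε12 hL0
          _ = ℓ ^ m * (ε * (c * Lf a N)) := by rw [hl]; ring
      exact le_of_mul_le_mul_left key2 hℓm0
  obtain ⟨H0, hH0⟩ := eventually_atTop.1 hev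
  exact ⟨z0, H0, hH0⟩

end Pool.Agent.H11B
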