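import Pool.Agent.H11B.Low
import Pool.Agent.H11P.SWc
import Pool.Agent.H13K.VZ
import Pool.Agent.H13K.CNTB
import Pool.Agent.H13K.LOC
import Pool.Agent.H13K.FL
import Pool.Agent.H13K.CRT
import Pool.Agent.H13K.AV
import Pool.Agent.H13K.SM
import Pool.Agent.H13K.LOWC
import Pool.Agent.H13K.OMV
import Pool.Agent.H13K.PY

/-! Low scales (for project BH, part B): composition. -/

set_option autoImplicit false

namespace Pool.Agent.H11B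

open Pool.Agent.H13K

/-- **Part B**: almost all systems, `(log H)^(m+δ) ≤ N ≤ (log H)^A` -/
theorem lowT (m : ℕ) (dd : Fin m → ℕ) (hm : 1 ≤ m) (hdd : ∀ i, 1 ≤ dd i) (A : ℕ) (δ ε : ℝ) (hδ : 0 < δ) (hε : 0 < ε) :
    ∃ z0 H0 : ℕ, ∀ H : ℕ, H0 ≤ H → ∃ Bad ⊆ bx dd H, (Bad.card : ℝ) ≤ ε * (bx dd H).card ∧
    ∀ a ∈ bx dd H, a ∉ Bad → (∀ p : ℕ, p.Prime → om p a ≠ p) → ∀ z : ℕ, z0 ≤ z → z ^ 4 ≤ H → 0 < Cz z a ∧
      ∀ N : ℕ, Real.log H ^ ((m : ℝ) + δ) ≤ N → (N : ℝ) ≤ Real.log H ^ A →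
        |Pf a N - Cz z a * Lf a N| ≤ ε * (Cz z a * Lf a N) :=
  low (SM.t (FL.t CNTB.t LOC.t) CRT.t AV.t) VZ.t (PY.t (OMV.t CNTB.t LOC.t)) (LOWC.t VZ.t) Pool.Agent.H11P.swU m dd hm hdd A δ ε hδ hε

end Pool.Agent.H11B
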